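import Pool.Agent.Helper87.NJ.St
import Pool.Agent.Helper30.NSL.Row
import Pool.Agent.Helper76.FDG.Fda

/-! [FDG] of NSLJ, two lemmas for helper76: the number of a full form in any order of the coordinates, in any extension;
the entropy of the full form over labels with the same information. -/

set_option autoImplicit false

namespace Pool.Agent.Helper80.FDG

open Finset Filter Topology Matrix Pool.Agent.Helper69.RK Pool.Agent.Helper31.EC Pool.Agent.Helper31.EC.Sp
open Pool.Agent.Helper40.EL Pool.Agent.Helper89.LX Pool.Agent.Helper84.MT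
open Pool.Agent.Helper3.LF (Mon lb)
open Pool.Agent.Helper33.LIT Pool.Agent.Helper49.KL
open Pool.Agent.Helper14.MC (gx vx vol_eq)
open Pool.Agent.Helper76.DIM (pck)
open Pool.Agent.Helper66.NJ (Kn1 gG gG_eq zFD)
open Pool.Agent.Helper30.NSL (cFD cFD_adf vol_cFD pck_dg_ge)
open Pool.Agent.Helper89.RAK (volK_le)

noncomputable section

variable {S T : Sp} {N D m : ℕ}

/-- the number of a full form in any order of the coordinates -/
theorem full_num (p : Pj T S) {V : ∀ k, Setoid (S.F k).Ω} {Q : S.VV N}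
    {G : ∀ k, (S.F k).Ω → Matrix (Mon N D) (Mon N D) ℝ} (x : Pool.Agent.Helper87.NJ.Fuf V Q D G) {κ : Type} [Finite κ]
    {A : κ → Part T} (hA : (Lab.ofZ (p.pb V)).DMf A) {R : ∀ k, Setoid (T.F k).Ω}
    (hR : ∀ᶠ k in UF, R k ⊓ (T.F k).Z ≤ p.pb V k) (f : Fin m → Fin N) (hf : Function.Bijective f)
    {z : ∀ k, FD (T.F k) (Mon m D)} (hz : (gaq (pck (p.vv Q) f) D).OptfK (LC.kz fun k => fc (R k)) A z) :
    vol (pck (p.vv Q) f) D z ≤ H (up1 (Lab.ofZ V) (Q.dg 1)) := by
  obtain ⟨y, hy⟩ : ∃ y : ∀ k, FD (T.F k) (Mon N D), y = fun k => zFD (p.pb V k) (fun w => G k (p.π k w)) := ⟨_, rfl⟩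
  have hkn : ∀ᶠ k in UF, Kn1 (p.pb V k) (fun w => G k (p.π k w)) := by
    filter_upwards [x.kn] with k hk w w' a b c d
    exact hk _ _ (p.supp k w a) (p.supp k w' b) c ((p.hZ k w w' a b).mp d)
  have hdl : ∀ k, T.dl 1 k = S.dl 1 k := fun k => by
    unfold Sp.dl
    rw [p.hn k]
  have hadf : (gaq (p.vv Q) D).Adf A y := by
    intro η hη
    have hL : ∀ᶠ k in UF, ∀ i, ((Lab.ofZ (p.pb V)) k).leak (A i k) ≤ η * (T.F k).n := by
      rw [eventually_all]
      intro i
      filter_upwards [(hA i).eventually (gt_mem_nhds hη)] with k hk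
      exact ((div_lt_iff₀ (T.F k).pos).mp hk).le
    filter_upwards [hL, hkn, x.kn, x.fm.1, x.fm.2 η hη] with k h1 h2 h3 h4 h5
    have e1 : gG (p.pb V k) (fun w => G k (p.π k w)) = fun w => G k (p.π k w) := gG_eq h2
    have e2 : gG (V k) (G k) = G k := gG_eq h3
    have hcp : (gaq (p.vv Q) D).cp k = (gaq Q D).cp k := by
      unfold Gau.cp
      rw [p.hn]
      rfl
    have c1 : ∀ w, (T.F k).μ w ≠ 0 → Cpd ((gaq (p.vv Q) D).cp k) (gG (p.pb V k) (fun w => G k (p.π k w)) w) := by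
      intro w hw
      have h6 : Cpd ((gaq Q D).cp k) (gG (V k) (G k) (p.π k w)) := h4 _ (p.supp k w hw)
      rw [e1, hcp]
      rw [e2] at h6
      exact h6
    have c2 : (T.F k).pb (fun w => ¬ (gaq (p.vv Q) D).φ k w (gG (p.pb V k) (fun w => G k (p.π k w)) w) ≤
        2 ^ (η * (T.F k).n)) ≤ η := by
      have h6 : (S.F k).pb (fun ω => ¬ (gaq Q D).φ k ω (gG (V k) (G k) ω) ≤ 2 ^ (η * (S.F k).n)) ≤ η := h5
      have h7 := pb_push (p.fp k) (fun ω => ¬ (gaq Q D).φ k ω (gG (V k) (G k) ω) ≤ 2 ^ (η * (S.F k).n))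
      rw [← h7] at h6
      refine le_trans (le_of_eq ?_) h6
      congr 1
      funext w
      rw [e1, e2, p.hn, gaq_pull]
      rfl
    subst hy
    exact ⟨h1, fun w hw => ⟨c1 w hw, c1 w hw⟩, c2, c2⟩
  have hvol : vol (p.vv Q) D y = vol Q D (fun k => zFD (V k) (G k)) := by
    have h1 : ∀ᶠ k in UF, vx (p.vv Q) y k = vx Q (fun k => zFD (V k) (G k)) k := by
      filter_upwards [hkn, x.kn] with k h2 h3
      have e1 : gG (p.pb V k) (fun w => G k (p.π k w)) = fun w => G k (p.π k w) := gG_eq h2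
      have e2 : gG (V k) (G k) = G k := gG_eq h3
      subst hy
      show ∑ w, (T.F k).μ w * gx (p.vv Q) k w (gG (p.pb V k) (fun w => G k (p.π k w)) w) =
        ∑ ω, (S.F k).μ ω * gx Q k ω (gG (V k) (G k) ω)
      rw [e1, e2, ← Pool.Agent.Helper80.SUB.sum_pj p k (fun ω => gx Q k ω (G k ω))]
      refine Finset.sum_congr rfl fun w _ => ?_
      rw [gx_pull]
    rw [vol_eq, vol_eq, ul_congr h1]
  set e : Fin N ≃ Fin m := (Equiv.ofBijective f hf).symm with he
  have hP : ∀ k ω a, (p.vv Q).v k ω a = (pck (p.vv Q) f).v k ω (e a) := by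
    intro k ω a
    show (p.vv Q).v k ω a = (p.vv Q).v k ω (f (e a))
    have h1 : f (e a) = a := (Equiv.ofBijective f hf).apply_symm_apply a
    rw [h1]
  have hl : (lb y).DMf A := by
    subst hy
    exact hA
  have hK : (LC.kz fun k => fc (R k)).ev (lb y) := by
    subst hy
    exact kz_ofZ hR
  have h1 : (gaq (pck (p.vv Q) f) D).AdfK (LC.kz fun k => fc (R k)) A (cFD (pck (p.vv Q) f) e y) :=
    ⟨cFD_adf hP hadf hl, hK⟩
  have h2 := volK_le hz h1
  have h3 := vol_cFD (A := A) e hP hadf hl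
  have h4 := x.fu
  linarith

/-- the entropy of the point over labels with the same information in an extension -/
theorem full_ent (p : Pj T S) {V : ∀ k, Setoid (S.F k).Ω} {Q : S.VV N} {W : ∀ k, Setoid (T.F k).Ω}
    (hW : PLe (fun k => fc (W k)) (fun k => fc (p.pb V k))) (f : Fin m → Fin N) (hf : Function.Surjective f) :
    H (up1 (Lab.ofZ V) (Q.dg 1)) ≤ H (up1 (Lab.ofZ W) ((pck (p.vv Q) f).dg 1)) := by
  refine le_trans ?_ (H_mono (up1_mono _ (pck_dg_ge (p.vv Q) hf 1)))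
  rw [Pool.Agent.Helper76.FDG.H_lit, Pool.Agent.Helper76.FDG.H_lit]
  have e1 : S.rt (fun k => Setoid.ker (Q.cellv 1 k)) V = fun k => h (fc (Setoid.ker ((p.vv Q).cellv 1 k)))
      (fc (p.pb V k)) / (T.F k).n := by
    funext k
    have h1 : Setoid.ker ((p.vv Q).cellv 1 k) = Setoid.comap (p.fp k).π (Setoid.ker (Q.cellv 1 k)) := by
      rw [vv_cellv]
      rfl
    rw [h1, h_fc, p.hn]
    show (S.F k).e _ (V k ⊓ (S.F k).Z) / _ = (T.F k).e _ (Setoid.comap (p.fp k).π (V k) ⊓ (T.F k).Z) / _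
    rw [(p.fp k).e_comap_base]
  have e2 : T.rt (fun k => Setoid.ker ((p.vv Q).cellv 1 k)) W = fun k => h (fc (Setoid.ker ((p.vv Q).cellv 1 k)))
      (fc (W k)) / (T.F k).n := by
    funext k
    rw [h_fc]
    rfl
  rw [e1, e2]
  have hBd : Part.Bd (S := T) (fun k => fc (Setoid.ker ((p.vv Q).cellv 1 k))) := rpI_Bd ((p.vv Q).bdd 1).toInf
  exact hr_anti hBd hW

end

end Pool.Agent.Helper80.FDG
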